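import Pool.Agent.TH685.TI.Idx2

set_option autoImplicit false
set_option maxHeartbeats 1000000

/-! # Q2: the primes `p` and `q = ⌊(n - p) / m⌋` are large for most `n` -/

namespace Pool.Agent.Results.MP_4011c3_nt.BothPrimesLarge

open Finset Filter Pool.Agent.TH685.Gen

/-- **Theorem.** Let `m ≥ 1`. For every `ε > 0` there is `c > 0` such that for all large `X`, all but at most
`ε X` of the integers `n ≤ X` have the following property: if `p < n` is a prime such that
`q = ⌊(n - p) / m⌋` and `q² - 2` are prime then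

* more than `c (log X)²` primes are smaller than `p`, and `p > c (log X)² log log X`;
* more than `c log X` primes `q' < q` have `q'² - 2` prime, and `q > c log X (log log X)²`. -/
theorem result (m : ℕ) (hm : 1 ≤ m) (ε : ℝ) (hε : 0 < ε) : ∃ c : ℝ, 0 < c ∧ ∃ X₀ : ℕ, ∀ X : ℕ,
    X₀ ≤ X → ∃ B : Finset ℕ, (B.card : ℝ) ≤ ε * X ∧ ∀ n : ℕ, n ≤ X → n ∉ B →
      ∀ p q : ℕ, p.Prime → p < n → q = (n - p) / m → q.Prime → (q ^ 2 - 2).Prime →
        (c * Real.log X ^ 2 < Set.ncard {p' : ℕ | p' < p ∧ p'.Prime} ∧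
          c * (Real.log X ^ 2 * Real.log (Real.log X)) < p) ∧
        (c * Real.log X < Set.ncard {q' : ℕ | q' < q ∧ q'.Prime ∧ (q' ^ 2 - 2).Prime} ∧
          c * (Real.log X * Real.log (Real.log X) ^ 2) < q) := by
  classical
  obtain ⟨C₁, hC₁, hp1⟩ := prime_idx
  obtain ⟨C₂, hC₂, hp2⟩ := sq_idx
  obtain ⟨C, hC, hcnt⟩ := counts
  have hmr : (1 : ℝ) ≤ m := by exact_mod_cast hm
  obtain ⟨c₀, hc₀d⟩ : ∃ c₀ : ℝ, c₀ = ε / (4 * C * m) := ⟨_, rfl⟩
  have hc₀ : 0 < c₀ := by rw [hc₀d]; positivity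
  have hlogt : Tendsto (fun x : ℕ => Real.log (x : ℝ)) atTop atTop :=
    Real.tendsto_log_atTop.comp tendsto_natCast_atTop_atTop
  obtain ⟨X₀, hX₀⟩ := eventually_atTop.1 ((hlogt.eventually_ge_atTop
    (max 4 (max (3 / c₀) ((1 / c₀) ^ 2)))).and (eventually_ge_atTop 3))
  refine ⟨min c₀ (min (c₀ / (4 * C₁)) (c₀ / (8 * C₂))), by positivity, X₀, fun X hX => ?_⟩
  obtain ⟨hLb, hX3⟩ := hX₀ X hX
  have hXr : (3 : ℝ) ≤ X := by exact_mod_cast hX3
  obtain ⟨P₂, P₁, hP₂c, hP₂, hP₁c, hP₁⟩ := hcnt X (by omega)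
  obtain ⟨L, hL⟩ : ∃ L : ℝ, L = Real.log X := ⟨_, rfl⟩
  rw [← hL] at hLb hP₂c hP₁c ⊢
  have hL4 : 4 ≤ L := (le_max_left _ _).trans hLb
  have hLc : 3 ≤ c₀ * L := by
    have h1 : 3 / c₀ ≤ L := (le_max_left _ _).trans ((le_max_right _ _).trans hLb)
    rw [div_le_iff₀ hc₀] at h1
    linarith
  have hLq : 1 ≤ c₀ ^ 2 * L := by
    have h1 : (1 / c₀) ^ 2 ≤ L := (le_max_right _ _).trans ((le_max_right _ _).trans hLb)
    rw [div_pow, one_pow, div_le_iff₀ (by positivity)] at h1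
    linarith
  have hl : 1 ≤ Real.log L := by
    rw [Real.le_log_iff_exp_le (by linarith)]
    have := Real.exp_one_lt_d9
    linarith
  have hlB : Real.log L / 2 ≤ Real.log (c₀ * L) := by
    have h1 : L ≤ (c₀ * L) ^ 2 := by
      have : L * 1 ≤ L * (c₀ ^ 2 * L) := mul_le_mul_of_nonneg_left hLq (by linarith)
      nlinarith
    have h2 := Real.log_le_log (by linarith) h1
    rw [Real.log_pow] at h2
    push_cast at h2
    linarith
  have hLL : c₀ * L ≤ c₀ * L ^ 2 := by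
    have : L ≤ L ^ 2 := by nlinarith
    exact mul_le_mul_of_nonneg_left this hc₀.le
  have hlB2 : Real.log L / 2 ≤ Real.log (c₀ * L ^ 2) :=
    hlB.trans (Real.log_le_log (by linarith) hLL)
  obtain ⟨S₁, hS₁, hm₁⟩ := first_card (fun j => j.Prime) (c₀ * L ^ 2) (by positivity) (X + 1)
  obtain ⟨S₂, hS₂, hm₂⟩ := first_card USq (c₀ * L) (by linarith) (X + 1)
  obtain ⟨E₁, hE₁⟩ : ∃ E₁ : Finset ℕ, E₁ = ((S₁ ×ˢ P₂) ×ˢ range m).image
    (fun z => z.1.1 + m * z.1.2 + z.2) := ⟨_, rfl⟩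
  obtain ⟨E₂, hE₂⟩ : ∃ E₂ : Finset ℕ, E₂ = ((P₁ ×ˢ S₂) ×ˢ range m).image
    (fun z => z.1.1 + m * z.1.2 + z.2) := ⟨_, rfl⟩
  refine ⟨E₁ ∪ E₂, ?_, ?_⟩
  · have h1 : (E₁.card : ℝ) ≤ S₁.card * P₂.card * m := by
      have : E₁.card ≤ S₁.card * P₂.card * m := by
        rw [hE₁]
        refine card_image_le.trans ?_
        rw [card_product, card_product, card_range]
      exact_mod_cast this
    have h2 : (E₂.card : ℝ) ≤ P₁.card * S₂.card * m := by
      have : E₂.card ≤ P₁.card * S₂.card * m := by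
        rw [hE₂]
        refine card_image_le.trans ?_
        rw [card_product, card_product, card_range]
      exact_mod_cast this
    have h3 : ((E₁ ∪ E₂).card : ℝ) ≤ E₁.card + E₂.card := by exact_mod_cast card_union_le _ _
    have h4 : (S₁.card : ℝ) ≤ 2 * (c₀ * L ^ 2) := by linarith
    have h5 : (S₂.card : ℝ) ≤ 2 * (c₀ * L) := by linarith
    have h6 : (S₁.card : ℝ) * P₂.card * m ≤ (2 * (c₀ * L ^ 2)) * (C * (X / L ^ 2)) * m := by gcongr
    have h7 : (P₁.card : ℝ) * S₂.card * m ≤ (C * (X / L)) * (2 * (c₀ * L)) * m := by gcongr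
    have h8 : (2 * (c₀ * L ^ 2)) * (C * (X / L ^ 2)) * m = ε * X / 2 := by
      rw [hc₀d]
      field_simp
      norm_num
    have h9 : (C * (X / L)) * (2 * (c₀ * L)) * m = ε * X / 2 := by
      rw [hc₀d]
      field_simp
      norm_num
    linarith
  · intro n hn hnB p q hp hpn hq hqp hq2
    rw [mem_union, not_or] at hnB
    have hdm := Nat.div_add_mod (n - p) m
    have hmod := Nat.mod_lt (n - p) (show 0 < m by omega)
    rw [← hq] at hdm
    have hqn : q ≤ n := by
      have : q * 1 ≤ m * q := by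
        rw [mul_comm m q]
        exact Nat.mul_le_mul_left q hm
      omega
    have hU : USq q := ⟨hqp, (GSq_iff q).2 hq2⟩
    have hpS : p ∉ S₁ := by
      intro hpS
      apply hnB.1
      rw [hE₁, mem_image]
      refine ⟨((p, q), (n - p) % m), ?_, ?_⟩
      · rw [mem_product, mem_product, mem_range]
        exact ⟨⟨hpS, hP₂ q (by omega) hU⟩, hmod⟩
      · show p + m * q + (n - p) % m = n
        omega
    have hqS : q ∉ S₂ := by
      intro hqS
      apply hnB.2
      rw [hE₂, mem_image]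
      refine ⟨((p, q), (n - p) % m), ?_, ?_⟩
      · rw [mem_product, mem_product, mem_range]
        exact ⟨⟨hP₁ p (by omega) hp, hqS⟩, hmod⟩
      · show p + m * q + (n - p) % m = n
        omega
    have h1 := hm₁ p (by omega) hp.one_lt.le hp hpS
    have h2 := hm₂ q (by omega) hqp.one_lt.le hU hqS
    have h3 := hp1 p _ (by linarith) h1
    have h4 := hp2 q _ hLc h2
    have hLp : 0 < L := by linarith
    obtain ⟨c, hc⟩ : ∃ c : ℝ, c = min c₀ (min (c₀ / (4 * C₁)) (c₀ / (8 * C₂))) := ⟨_, rfl⟩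
    have hca : c ≤ c₀ := by rw [hc]; exact min_le_left _ _
    have hcb : c ≤ c₀ / (4 * C₁) := by
      rw [hc]; exact (min_le_right _ _).trans (min_le_left _ _)
    have hcc : c ≤ c₀ / (8 * C₂) := by
      rw [hc]; exact (min_le_right _ _).trans (min_le_right _ _)
    rw [← hc]
    have e1 : cn (fun j => j.Prime) p ≤ Set.ncard {p' : ℕ | p' < p ∧ p'.Prime} := by
      unfold cn
      apply Set.ncard_le_ncard
      · rintro j ⟨-, hj2, hj3⟩
        exact ⟨hj2, hj3⟩
      · exact (Set.finite_Iio p).subset (fun j hj => hj.1)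
    have e1r : (cn (fun j => j.Prime) p : ℝ) ≤ Set.ncard {p' : ℕ | p' < p ∧ p'.Prime} := by
      exact_mod_cast e1
    have e2 : cn USq q ≤ Set.ncard {q' : ℕ | q' < q ∧ q'.Prime ∧ (q' ^ 2 - 2).Prime} := by
      unfold cn
      apply Set.ncard_le_ncard
      · rintro j ⟨-, hj2, hj3⟩
        exact ⟨hj2, hj3.1, (GSq_iff j).1 hj3.2⟩
      · exact (Set.finite_Iio q).subset (fun j hj => hj.1)
    have e2r : (cn USq q : ℝ) ≤ Set.ncard {q' : ℕ | q' < q ∧ q'.Prime ∧ (q' ^ 2 - 2).Prime} := by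
      exact_mod_cast e2
    refine ⟨⟨?_, ?_⟩, ⟨?_, ?_⟩⟩
    · have : c * L ^ 2 ≤ c₀ * L ^ 2 := mul_le_mul_of_nonneg_right hca (by positivity)
      linarith
    · have h5 : c₀ * L ^ 2 * (Real.log L / 2) ≤ C₁ * p :=
        le_trans (mul_le_mul_of_nonneg_left hlB2 (by positivity)) h3
      have h6 : c * (L ^ 2 * Real.log L) ≤ c₀ / (4 * C₁) * (L ^ 2 * Real.log L) :=
        mul_le_mul_of_nonneg_right hcb (by positivity)
      have h7 : c₀ / (4 * C₁) * (L ^ 2 * Real.log L) = (c₀ * L ^ 2 * (Real.log L / 2)) / (2 * C₁) := by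
        field_simp
        ring
      have hp0 : (0 : ℝ) < p := by exact_mod_cast hp.pos
      have h8 : (c₀ * L ^ 2 * (Real.log L / 2)) / (2 * C₁) < p := by
        rw [div_lt_iff₀ (by positivity)]
        nlinarith
      linarith
    · have : c * L ≤ c₀ * L := mul_le_mul_of_nonneg_right hca (by positivity)
      linarith
    · have h5 : c₀ * L * (Real.log L / 2) ^ 2 ≤ C₂ * q := by
        refine le_trans (mul_le_mul_of_nonneg_left ?_ (by positivity)) h4
        exact pow_le_pow_left₀ (by linarith) hlB 2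
      have h6 : c * (L * Real.log L ^ 2) ≤ c₀ / (8 * C₂) * (L * Real.log L ^ 2) :=
        mul_le_mul_of_nonneg_right hcc (by positivity)
      have h7 : c₀ / (8 * C₂) * (L * Real.log L ^ 2) = (c₀ * L * (Real.log L / 2) ^ 2) / (2 * C₂) := by
        field_simp
        ring
      have hq0 : (0 : ℝ) < q := by exact_mod_cast hqp.pos
      have h8 : (c₀ * L * (Real.log L / 2) ^ 2) / (2 * C₂) < q := by
        rw [div_lt_iff₀ (by positivity)]
        nlinarith
      linarith

end Pool.Agent.Results.MP_4011c3_nt.BothPrimesLarge
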