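import Pool.Agent.TH882.T4

/-!
Fix `m ≥ 1`. For all but a proportion `κ` of the data `(n, k_1, ..., k_r)` without local obstruction,
`n ≤ K x`, `k_j ≤ K x ^ 2`, there are at least `c x / (log x) ^ (r + 2)` primes `p < n` such that
`q = ⌊(n - p) / m⌋` is a prime, `q ≤ x`, without other primes at distance at most `L log x` and all
the companion values `q ^ 2 + k_j` are prime.
-/

set_option autoImplicit false

open Finset Filter Topology Polynomial

namespace Pool.Agent.Results.MP_4011c3_nt.CompanionsOnAverage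

/-- The only prime at distance at most `R` from `p` is `p` itself (if it is one). -/
def Isolated (R : ℝ) (p : ℕ) : Prop := ∀ q : ℕ, q.Prime → |(q : ℝ) - p| ≤ R → q = p

/-- For every prime `l` there is an integer `a` such that `l` divides none of the numbers `a`,
`n - m a`, `a ^ 2 + k_j`. -/
def LocallyPossible {r : ℕ} (m n : ℕ) (k : Fin r → ℕ) : Prop :=
  ∀ l : ℕ, l.Prime → ∃ a : ℤ, ¬ (l : ℤ) ∣ a ∧ ¬ (l : ℤ) ∣ n - m * a ∧ ∀ j, ¬ (l : ℤ) ∣ a ^ 2 + k j

open Classical in
/-- The primes `p < n` such that `q = ⌊(n - p) / m⌋` is a prime `q ≤ x` without other primes at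
distance at most `L * log x` and all `q ^ 2 + k_j` are prime. -/
noncomputable def solutions {r : ℕ} (m : ℕ) (L : ℝ) (n : ℕ) (k : Fin r → ℕ) (x : ℕ) : Finset ℕ :=
  (range n).filter (fun p => p.Prime ∧ ((n - p) / m).Prime ∧ (n - p) / m ≤ x ∧
    Isolated (L * Real.log x) ((n - p) / m) ∧ ∀ j, (((n - p) / m) ^ 2 + k j).Prime)

open Classical in
/-- The locally possible data `n ≤ K x`, `k_j ≤ K x ^ 2` with few solutions. -/
noncomputable def exceptions (r m : ℕ) (L c : ℝ) (K x : ℕ) : Finset (ℕ × (Fin r → ℕ)) :=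
  (Icc 1 (K * x) ×ˢ Fintype.piFinset (fun _ : Fin r => Icc 1 (K * x ^ 2))).filter (fun d =>
    LocallyPossible m d.1 d.2 ∧
    ((solutions m L d.1 d.2 x).card : ℝ) < c * (x / Real.log x ^ (r + 2)))

theorem result (r m : ℕ) (hm : 1 ≤ m) (L : ℝ) (K : ℕ) (κ : ℝ) (hκ : 0 < κ) :
    (∃ c : ℝ, 0 < c ∧ ∃ x₀ : ℕ, ∀ x : ℕ, x₀ ≤ x →
      ((exceptions r m L c K x).card : ℝ) ≤ κ * (x * ((x : ℝ) ^ 2) ^ r)) ∧
    ∀ n k : ℕ, LocallyPossible 1 n (fun _ : Fin 1 => k) ↔ Even n ∧ Even k ∧ k % 3 ≠ 2 := by
  classical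
  have hmZ : (m : ℤ) ≠ 0 := by omega
  constructor
  · set σ : Fin (1 + r) → ℤ :=
      Fin.append (fun _ : Fin 1 => (-1 : ℤ)) (fun _ : Fin r => (1 : ℤ)) with hσd
    set g : Fin (1 + r) → ℤ[X] :=
      Fin.append (fun _ : Fin 1 => C (m : ℤ) * X) (fun _ : Fin r => X ^ 2) with hgd
    have hσ : ∀ j, σ j = 1 ∨ σ j = -1 := by
      intro j
      refine Fin.addCases (fun i => ?_) (fun i => ?_) j
      · right
        simp [hσd]
      · left
        simp [hσd]
    have d1 : ∀ i : Fin 1, (g (Fin.castAdd r i)).natDegree = 1 := by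
      intro i
      rw [hgd, Fin.append_left]
      exact natDegree_C_mul_X _ hmZ
    have d2 : ∀ i : Fin r, (g (Fin.natAdd 1 i)).natDegree = 2 := by
      intro i
      rw [hgd, Fin.append_right]
      exact natDegree_X_pow 2
    obtain ⟨c, hc, x₀, h⟩ := Pool.Agent.TH882.TS.iso_mainM σ hσ g
      (fun j => by
        refine Fin.addCases (fun i => ?_) (fun i => ?_) j
        · rw [d1 i]
        · rw [d2 i]
          norm_num)
      (fun j => by
        refine Fin.addCases (fun i => ?_) (fun i => ?_) j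
        · rw [hgd, Fin.append_left]
          simp only [leadingCoeff_mul, leadingCoeff_C, leadingCoeff_X, mul_one]
          omega
        · rw [hgd, Fin.append_right, leadingCoeff_X_pow]
          norm_num) L K κ hκ
    refine ⟨c, hc, x₀, fun x hx => ?_⟩
    have h1 := h x hx
    have e0 : ∏ j : Fin (1 + r), (x : ℝ) ^ (g j).natDegree = x * ((x : ℝ) ^ 2) ^ r := by
      rw [Fin.prod_univ_add]
      simp only [d1, d2, pow_one, prod_const, card_univ, Fintype.card_fin]
    rw [e0] at h1
    set f : ℕ × (Fin r → ℕ) → (Fin (1 + r) → ℕ) := fun d =>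
      Fin.append (fun _ : Fin 1 => d.1) d.2 with hf
    have f1 : ∀ d, ∀ i : Fin 1, f d (Fin.castAdd r i) = d.1 := fun d i => by
      rw [hf]
      simp only [Fin.append_left]
    have f2 : ∀ d, ∀ i : Fin r, f d (Fin.natAdd 1 i) = d.2 i := fun d i => by
      rw [hf]
      simp only [Fin.append_right]
    have s1 : ∀ i : Fin 1, σ (Fin.castAdd r i) = -1 := fun i => by
      rw [hσd]
      simp only [Fin.append_left]
    have s2 : ∀ i : Fin r, σ (Fin.natAdd 1 i) = 1 := fun i => by
      rw [hσd]
      simp only [Fin.append_right]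
    have v1 : ∀ i : Fin 1, ∀ n : ℤ, (g (Fin.castAdd r i)).eval n = m * n := fun i n => by
      rw [hgd]
      simp only [Fin.append_left, eval_mul, eval_C, eval_X]
    have v2 : ∀ i : Fin r, ∀ n : ℤ, (g (Fin.natAdd 1 i)).eval n = n ^ 2 := fun i n => by
      rw [hgd]
      simp only [Fin.append_right, eval_pow, eval_X]
    refine le_trans ?_ h1
    -- replace the solutions `p` by the primes `q`
    set S : ℕ × (Fin r → ℕ) → Finset ℕ := fun d => (Icc 1 x).filter (fun q => q.Prime ∧
      Isolated (L * Real.log x) q ∧ m * q < d.1 ∧ (d.1 - m * q).Prime ∧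
        ∀ j, (q ^ 2 + d.2 j).Prime) with hS
    refine Pool.Agent.TH882.TS.tr_excM _ σ g c K x _ f ?_ S ?_ ?_ ?_ ?_
    · rintro ⟨N, a⟩ _ ⟨N', a'⟩ _ he
      have e1 : N = N' := by
        have := congrFun he (Fin.castAdd r (0 : Fin 1))
        rwa [f1, f1] at this
      have e2 : a = a' := by
        funext i
        have := congrFun he (Fin.natAdd 1 i)
        rwa [f2, f2] at this
      rw [e1, e2]
    · intro d hd j
      unfold exceptions at hd
      rw [mem_filter, mem_product, Fintype.mem_piFinset] at hd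
      obtain ⟨⟨g1, g2⟩, -⟩ := hd
      refine Fin.addCases (fun i => ?_) (fun i => ?_) j
      · rw [f1, d1, pow_one]
        exact g1
      · rw [f2, d2]
        exact g2 i
    · intro d hd l hlp
      unfold exceptions at hd
      rw [mem_filter] at hd
      obtain ⟨n, n1, n2, n3⟩ := hd.2.1 l hlp
      refine ⟨n, n1, fun j => ?_⟩
      refine Fin.addCases (fun i => ?_) (fun i => ?_) j
      · rw [f1, s1, v1]
        intro hdv
        apply n2
        have e1 : (d.1 : ℤ) + -1 * (m * n) = d.1 - m * n := by ring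
        rwa [e1] at hdv
      · rw [f2, s2, v2]
        intro hdv
        apply n3 i
        rwa [one_mul, add_comm] at hdv
    · intro d hd
      unfold exceptions at hd
      rw [mem_filter] at hd
      have e1 : 1 + r + 1 = r + 2 := by omega
      rw [e1]
      refine lt_of_le_of_lt (Nat.cast_le.2 ?_) hd.2.2
      apply card_le_card_of_injOn (fun q => d.1 - m * q)
      · intro q hq
        have hq' := mem_coe.1 hq
        rw [hS, mem_filter, mem_Icc] at hq'
        obtain ⟨⟨q1, q2⟩, q3, q4, q5, q6, q7⟩ := hq'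
        rw [mem_coe]
        unfold solutions
        rw [mem_filter, mem_range]
        have e2 : d.1 - (d.1 - m * q) = m * q := by omega
        have e3 : (d.1 - (d.1 - m * q)) / m = q := by
          rw [e2]
          exact Nat.mul_div_cancel_left q (by omega)
        have hq0 : 0 < m * q := Nat.mul_pos (by omega) (by omega)
        simp only
        rw [e3]
        exact ⟨by omega, q6, q3, q2, q4, q7⟩
      · intro q hq q' hq' he
        have hq1 := mem_coe.1 hq
        have hq1' := mem_coe.1 hq'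
        rw [hS, mem_filter] at hq1 hq1'
        have e2 := hq1.2.2.2.1
        have e3 := hq1'.2.2.2.1
        simp only at he
        have e4 : m * q = m * q' := by omega
        exact Nat.eq_of_mul_eq_mul_left (by omega) e4
    · intro d hd n hn1 hn2 hn3 hn4
      rw [hS, mem_filter]
      have w1 := hn4 (Fin.castAdd r (0 : Fin 1))
      rw [f1, s1, v1] at w1
      have hlt : m * n < d.1 := by
        by_contra hcon
        push Not at hcon
        have e1 : ((d.1 : ℤ) + -1 * ((m : ℤ) * (n : ℤ))).toNat = 0 := by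
          have : (d.1 : ℤ) ≤ (m : ℤ) * n := by exact_mod_cast hcon
          omega
        rw [e1] at w1
        exact absurd w1 (by norm_num)
      have e1 : ((d.1 : ℤ) + -1 * ((m : ℤ) * (n : ℤ))).toNat = d.1 - m * n := by
        have e2 : (d.1 : ℤ) + -1 * ((m : ℤ) * (n : ℤ)) = ((d.1 - m * n : ℕ) : ℤ) := by
          rw [Nat.cast_sub hlt.le]
          push_cast
          ring
        rw [e2, Int.toNat_natCast]
      rw [e1] at w1
      refine ⟨hn1, hn2, hn3, hlt, w1, fun i => ?_⟩
      have w2 := hn4 (Fin.natAdd 1 i)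
      rw [f2, s2, v2] at w2
      have e3 : (d.2 i : ℤ) + 1 * (n : ℤ) ^ 2 = ((n ^ 2 + d.2 i : ℕ) : ℤ) := by push_cast; ring
      rwa [e3, Int.toNat_natCast] at w2
  · intro n k
    constructor
    · intro h
      obtain ⟨a, a1, a2, a3⟩ := h 2 Nat.prime_two
      obtain ⟨b, b1, b2, b3⟩ := h 3 Nat.prime_three
      have a4 := a3 0
      have b4 := b3 0
      push_cast at a1 a2 a4 b1 b4
      rw [Nat.even_iff, Nat.even_iff]
      obtain ⟨u, hu⟩ : ∃ u : ℤ, a = 2 * u + 1 := ⟨a / 2, by omega⟩
      have e1 : a ^ 2 + (k : ℤ) = 2 * (2 * u ^ 2 + 2 * u) + 1 + k := by rw [hu]; ring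
      rw [e1] at a4
      have e2 : (n : ℤ) - 1 * a = n - (2 * u + 1) := by rw [hu]; ring
      rw [e2] at a2
      refine ⟨by omega, by omega, ?_⟩
      intro hk
      apply b4
      obtain ⟨w, hw⟩ : ∃ w : ℤ, (k : ℤ) = 3 * w + 2 := ⟨k / 3, by omega⟩
      have hb : b % 3 = 1 ∨ b % 3 = 2 := by omega
      rcases hb with hb | hb
      · obtain ⟨v, hv⟩ : ∃ v : ℤ, b = 3 * v + 1 := ⟨b / 3, by omega⟩
        exact ⟨3 * v ^ 2 + 2 * v + 1 + w, by rw [hv, hw]; ring⟩
      · obtain ⟨v, hv⟩ : ∃ v : ℤ, b = 3 * v + 2 := ⟨b / 3, by omega⟩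
        exact ⟨3 * v ^ 2 + 4 * v + 2 + w, by rw [hv, hw]; ring⟩
    · rintro ⟨hn, hk, hk3⟩ l hlp
      rw [Nat.even_iff] at hn hk
      rcases Nat.lt_or_ge l 5 with h6 | h6
      · have hl2 := hlp.two_le
        have hl4 : l ≠ 4 := by
          rintro rfl
          exact absurd hlp (by norm_num)
        have h7 : l = 2 ∨ l = 3 := by omega
        rcases h7 with rfl | rfl
        · refine ⟨1, by norm_num, ?_, fun _ => ?_⟩ <;> push_cast <;> omega
        · by_cases h8 : n % 3 = 1
          · refine ⟨2, by norm_num, ?_, fun _ => ?_⟩ <;> push_cast <;> omega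
          · refine ⟨1, by norm_num, ?_, fun _ => ?_⟩ <;> push_cast <;> omega
      · obtain ⟨a, n1, n2⟩ := Pool.Agent.TH882.TS.wit (![-1, 1] : Fin 2 → ℤ)
          (by
            intro j
            fin_cases j
            · exact Or.inr rfl
            · exact Or.inl rfl) (![X, X ^ 2] : Fin 2 → ℤ[X]) (by
            intro j
            fin_cases j
            · show 1 ≤ (X : ℤ[X]).natDegree
              rw [natDegree_X]
            · show 1 ≤ (X ^ 2 : ℤ[X]).natDegree
              rw [natDegree_X_pow]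
              norm_num) l hlp
          (by
            intro j hd
            have h9 : (l : ℤ) ∣ 1 := by
              fin_cases j
              · have : (l : ℤ) ∣ (X : ℤ[X]).leadingCoeff := hd
                rwa [leadingCoeff_X] at this
              · have : (l : ℤ) ∣ (X ^ 2 : ℤ[X]).leadingCoeff := hd
                rwa [leadingCoeff_X_pow] at this
            have := Int.le_of_dvd one_pos h9
            omega) (by
            rw [Fin.sum_univ_two]
            show 1 + ((X : ℤ[X]).natDegree + (X ^ 2 : ℤ[X]).natDegree) < l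
            rw [natDegree_X, natDegree_X_pow]
            omega) ![n, k]
        refine ⟨a, n1, fun hd => n2 0 ?_, fun _ hd => n2 1 ?_⟩
        · show (l : ℤ) ∣ (n : ℤ) + -1 * eval a X
          have e1 : (n : ℤ) + -1 * a = n - ((1 : ℕ) : ℤ) * a := by push_cast; ring
          rw [eval_X, e1]
          exact hd
        · show (l : ℤ) ∣ (k : ℤ) + 1 * eval a (X ^ 2)
          have e1 : (k : ℤ) + 1 * a ^ 2 = a ^ 2 + k := by ring
          rw [eval_pow, eval_X, e1]
          exact hd

end Pool.Agent.Results.MP_4011c3_nt.CompanionsOnAverage
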