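import Pool.Agent.TH464.PO.QuadM

set_option autoImplicit false

/-!
# Almost primes `k`, `k ^ 2 - 2`, `N - m k`: patterns with prescribed surroundings, uniformly in
`m` and `N`

Let `N ≤ n` be prime to `m`, `m + N` odd. Let `k` be good if `k` and `N - m k > 0` have at most
`r` prime factors and `|k ^ 2 - 2|` at most `2 r`, all of them larger than `n ^ (1 / r)`. (For `N
= n - j`, `0 ≤ j < m`, the number `p = N - m k` satisfies `⌊(n - p) / m⌋ = k`, so this is the
question of the problem for almost primes.) Let `V` be the sieve density of this condition, and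
for a finite set `B` let `V_B` be the sieve density of the condition that all `k + t`, `t ∈ B`,
satisfy it. Given `θ > 0`, a size `β` of patterns, a number `w` of windows, a size `x` and an
accuracy `ε`, for all `r ≥ r0` and all large `n`, uniformly in ALL such `m` and `N`, in ALL
intervals `(Z, Z + Y]` with `Y ≥ n ^ θ`, `m (Z + 2 Y) < N`, for ALL sets `B ⊆ [0, x / V]` of at
most `β` elements, ALL disjoint windows `(u_i, v_i] ⊆ [0, x / V]` without elements of `B` and ALL
finite sets `E_i`: the number of the `k` in `(Z, Z + Y]` such that all `k + h`, `h ∈ B`, are good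
and the number of the good integers in `(k + u_i, k + v_i]` lies in `E_i` for every `i` is `Y V_B`
times the product of the Poisson probabilities of the `E_i` for the means `(v_i - u_i) V`, up to
`ε Y V_B`.
-/

namespace Pool.Agent.Results.MP_4011c3_nt.PatternsUniform

open Finset Filter

/-- `N` has at most `B` prime factors (with multiplicity), all of them larger than `z`. -/
def AlmostPrime (B : ℕ) (z : ℝ) (N : ℕ) : Prop :=
  N.primeFactorsList.length ≤ B ∧ ∀ p : ℕ, p.Prime → p ∣ N → z < (p : ℝ)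

/-- `k` is good: `k`, `|k ^ 2 - 2|` and `N - m k > 0` are almost primes: `k` and `N - m k` have at most `r`
prime factors, `|k ^ 2 - 2|` has at most `2 r` prime factors, all of them larger than `n ^ (1 / r)`. -/
def Good (m N r n k : ℕ) : Prop :=
  AlmostPrime r ((n : ℝ) ^ (1 / (r : ℝ))) k ∧
    AlmostPrime (2 * r) ((n : ℝ) ^ (1 / (r : ℝ))) ((k : ℤ) ^ 2 - 2).natAbs ∧ m * k < N ∧
    AlmostPrime r ((n : ℝ) ^ (1 / (r : ℝ))) (N - m * k)

open Classical in
/-- The sieve density: the product of `1 - ρ(p) / p` over the primes `p ≤ n ^ (1 / r)`, where `ρ(p)` is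
the number of the `k` mod `p` with `p ∣ k (k ^ 2 - 2) (N - m k)`. -/
noncomputable def V (m N r n : ℕ) : ℝ :=
  ∏ p ∈ (Finset.range (⌊(n : ℝ) ^ (1 / (r : ℝ))⌋₊ + 1)).filter Nat.Prime,
    (1 - (((Finset.range p).filter
      (fun k : ℕ => p ∣ k ∨ (p : ℤ) ∣ (k : ℤ) ^ 2 - 2 ∨ (p : ℤ) ∣ (N : ℤ) - m * k)).card : ℝ) / p)

open Classical in
/-- The sieve density of the pattern `B`: the product of `1 - ρ(p) / p` over the primes `p ≤ n ^ (1 / r)`,
where `ρ(p)` is the number of the `k` mod `p` for which the previous condition holds at `k + t` for some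
`t ∈ B`. -/
noncomputable def VB (m N r n : ℕ) (B : Finset ℕ) : ℝ :=
  ∏ p ∈ (Finset.range (⌊(n : ℝ) ^ (1 / (r : ℝ))⌋₊ + 1)).filter Nat.Prime,
    (1 - (((Finset.range p).filter (fun k : ℕ => ∃ t ∈ B, p ∣ k + t ∨
      (p : ℤ) ∣ ((k + t : ℕ) : ℤ) ^ 2 - 2 ∨
      (p : ℤ) ∣ (N : ℤ) - m * ((k + t : ℕ) : ℤ))).card : ℝ) / p)

open Classical in
/-- The number of the good `k` in `(u, v]`. -/
noncomputable def count (m N r n : ℕ) (u v : ℕ) : ℕ :=
  ((Finset.Ioc u v).filter (fun k => Good m N r n k)).card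

/-- The probability of `E` for the Poisson distribution of mean `x`. -/
noncomputable def Poi (x : ℝ) (E : Finset ℕ) : ℝ :=
  ∑ j ∈ E, Real.exp (-x) * x ^ j / j.factorial

open Pool.Agent.TH464.PO

open Classical in
/-- **Patterns with prescribed surroundings**, uniformly in `m` and `N`. -/
theorem result (θ : ℝ) (hθ : 0 < θ) (β w : ℕ) (x ε : ℝ) (hε : 0 < ε) :
    ∃ r0 : ℕ, ∀ r : ℕ, r0 ≤ r → ∀ᶠ n : ℕ in atTop, ∀ m N : ℕ, 1 ≤ m → N ≤ n → Nat.Coprime m N →
      Odd (m + N) → ∀ Z Y : ℕ, (n : ℝ) ^ θ ≤ Y → m * (Z + 2 * Y) < N →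
      ∀ B : Finset ℕ, B.card ≤ β → (∀ h ∈ B, h * V m N r n ≤ x) →
      ∀ u v : Fin w → ℕ, (∀ i, u i ≤ v i) → (∀ i, v i * V m N r n ≤ x) →
      (∀ i j, i ≠ j → v i ≤ u j ∨ v j ≤ u i) → (∀ i, ∀ h ∈ B, h ≤ u i ∨ v i < h) →
      ∀ E : Fin w → Finset ℕ,
        |(((Finset.Ioc Z (Z + Y)).filter (fun k => (∀ h ∈ B, Good m N r n (k + h)) ∧
            ∀ i, count m N r n (k + u i) (k + v i) ∈ E i)).card : ℝ) -
          Y * VB m N r n B * ∏ i, Poi (((v i : ℝ) - u i) * V m N r n) (E i)| ≤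
            ε * (Y * VB m N r n B) := by
  obtain ⟨r0, h0⟩ := gq_base 4 26 (by norm_num) θ hθ β w x ε hε
  refine ⟨max r0 1, ?_⟩
  intro r hr
  filter_upwards [h0 r ((le_max_left _ _).trans hr), sf_GM r ((le_max_right _ _).trans hr),
    qm_GQ θ hθ] with n hn hsf hGQ
  intro m N hm hN hco hodd Z Y hY hZY
  have hmN : (m : ℝ) * (n : ℝ) ^ θ ≤ N := by
    have h1 : m * Y ≤ N := (Nat.mul_le_mul_left m (by omega)).trans hZY.le
    calc (m : ℝ) * (n : ℝ) ^ θ ≤ m * Y := by gcongr
      _ ≤ N := by exact_mod_cast h1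
  exact hn (QM m N) (hGQ m N hm hN hco hodd hmN) (Good m N r n) (V m N r n) (VB m N r n) (Z + 2 * Y)
    (fun k hk => hsf m N k hm hN (lt_of_le_of_lt (Nat.mul_le_mul_left m hk) hZY)) (V_QM m N _)
    (fun B => V_QMB m N B _) Z Y hY le_rfl

end Pool.Agent.Results.MP_4011c3_nt.PatternsUniform
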